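import Pool.Agent.Helper2.LD.St1b

/-! LD project, module CnF: common neighbours in the full graph -/

set_option autoImplicit false

namespace Pool.Agent.Helper13.LD

open Pool.Agent.Helper2.LD

theorem adj_root {K : Type} {f : Fb K} (h : Fb.adj f Fb.root) : ∃ κ c, f = Fb.a1 κ c := by
  rcases h with ⟨h1, h2⟩ | ⟨h1, h2⟩
  · cases f with
    | root => exact absurd rfl h1
    | a1 κ c => exact ⟨κ, c, rfl⟩
    | a2 κ c => simp [Fb.par] at h2
    | r κ c => simp [Fb.par] at h2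
    | lf κ c i => simp [Fb.par] at h2
    | mk κ c i j =>
      simp only [Fb.par] at h2
      split_ifs at h2
  · exact absurd rfl h1

theorem a1_adj_root {K : Type} (κ : K) (c : Bool) : Fb.adj (Fb.a1 κ c) Fb.root :=
  Or.inl ⟨by simp, rfl⟩

theorem pCnF : StCnF := by
  intro K V k C S lab u v huv
  constructor
  · rintro ⟨w, h1, h2⟩
    rcases h1 with ⟨a1, a2, a3⟩ | ⟨a1, a2⟩
    · rcases h2 with ⟨b1, b2, b3⟩ | ⟨b1, b2⟩
      · right; left
        refine ⟨a2, b2, ?_, w.1.1, a1, b1⟩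
        intro h
        apply huv
        apply Subtype.ext
        exact Prod.ext h (a2.trans b2.symm)
      · right; right; left
        refine ⟨a2, ?_, ?_⟩
        · rw [a3] at b2
          exact adj_root b2
        · show (brG K S (HH k)).Adj u.1.1 v.1.1
          rw [b1]
          exact a1
    · rcases h2 with ⟨b1, b2, b3⟩ | ⟨b1, b2⟩
      · right; right; right
        refine ⟨b2, ?_, ?_⟩
        · rw [b3] at a2
          exact adj_root a2
        · show (brG K S (HH k)).Adj u.1.1 v.1.1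
          rw [a1]
          exact b1.symm
      · left
        refine ⟨a1.trans b1.symm, w.1.2, ?_, a2, b2⟩
        have h := w.2
        rw [← a1] at h
        exact h
  · rintro (⟨h1, g, hg, h2, h3⟩ | ⟨h1, h2, _, z, h4, h5⟩ | ⟨h1, ⟨κ, c, h2⟩, h3⟩ | ⟨h1, ⟨κ, c, h2⟩, h3⟩)
    · exact ⟨⟨(own u, g), hg⟩, Or.inr ⟨rfl, h2⟩, Or.inr ⟨h1.symm, h3⟩⟩
    · exact ⟨⟨(z, Fb.root), trivial⟩, Or.inl ⟨h4, h1, rfl⟩, Or.inl ⟨h5, h2, rfl⟩⟩
    · refine ⟨⟨(own v, Fb.root), trivial⟩, Or.inl ⟨h3, h1, rfl⟩, Or.inr ⟨rfl, ?_⟩⟩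
      show Fb.adj (fb v) Fb.root
      rw [h2]
      exact a1_adj_root κ c
    · refine ⟨⟨(own u, Fb.root), trivial⟩, Or.inr ⟨rfl, ?_⟩, Or.inl ⟨h3.symm, h1, rfl⟩⟩
      show Fb.adj (fb u) Fb.root
      rw [h2]
      exact a1_adj_root κ c

end Pool.Agent.Helper13.LD
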