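import Pool.Agent.Helper2.LD.St1b

/-! LD project, module DegF: degrees in the full graph -/

set_option autoImplicit false

namespace Pool.Agent.Helper13.LD

open Pool.Agent.Helper2.LD

/-- the neighbours of a name different from the root -/
theorem nbrs {K : Type} [DecidableEq K] (m : ℕ) (code : K → Finset ℕ) (L : Finset K)
    (hcode : ∀ κ, ∀ i ∈ code κ, 1 ≤ i) (f : Fb K) (hf : Fb.ok m code L f) (hr : f ≠ Fb.root) :
    ∃ T : Finset (Fb K), T.card = fdeg m code L f ∧
      ∀ g, g ∈ T ↔ (Fb.ok m code L g ∧ Fb.adj f g) := by
  classical
  cases f with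
  | root => exact absurd rfl hr
  | a1 κ c =>
    refine ⟨insert Fb.root (insert (Fb.a2 κ c) ((code κ).image fun i => Fb.mk κ c i 1)), ?_, ?_⟩
    · rw [Finset.card_insert_of_notMem, Finset.card_insert_of_notMem,
        Finset.card_image_of_injective]
      · simp only [fdeg]
        omega
      · intro i j h
        simpa using h
      · simp
      · simp
    · intro g
      rw [Finset.mem_insert, Finset.mem_insert, Finset.mem_image]
      constructor
      · rintro (rfl | rfl | ⟨i, hi, rfl⟩)
        · exact ⟨trivial, Or.inl ⟨by simp, rfl⟩⟩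
        · exact ⟨trivial, Or.inr ⟨by simp, rfl⟩⟩
        · exact ⟨⟨hi, le_refl _, hcode κ i hi⟩, Or.inr ⟨by simp, by simp [Fb.par]⟩⟩
      · rintro ⟨hg, ⟨_, h⟩ | ⟨h0, h⟩⟩
        · exact Or.inl h
        · cases g with
          | root => exact absurd rfl h0
          | a1 κ' c' => simp [Fb.par] at h
          | a2 κ' c' =>
            simp only [Fb.par, Fb.a1.injEq] at h
            right; left
            rw [h.1, h.2]
          | r κ' c' => simp [Fb.par] at h
          | lf κ' c' i => simp [Fb.par] at h
          | mk κ' c' i j =>
            simp only [Fb.par] at h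
            split_ifs at h with h2
            simp only [Fb.a1.injEq] at h
            have h3 : j = 1 := by have := hg.2.1; omega
            right; right
            refine ⟨i, ?_, ?_⟩
            · rw [h.1]; exact hg.1
            · rw [h.1, h.2, h3]
  | a2 κ c =>
    refine ⟨{Fb.a1 κ c, Fb.r κ c}, ?_, ?_⟩
    · rw [Finset.card_pair (by simp)]
      rfl
    · intro g
      rw [Finset.mem_insert, Finset.mem_singleton]
      constructor
      · rintro (rfl | rfl)
        · exact ⟨trivial, Or.inl ⟨by simp, rfl⟩⟩
        · exact ⟨trivial, Or.inr ⟨by simp, rfl⟩⟩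
      · rintro ⟨_, ⟨_, h⟩ | ⟨h0, h⟩⟩
        · exact Or.inl h
        · cases g with
          | root => exact absurd rfl h0
          | a1 κ' c' => simp [Fb.par] at h
          | a2 κ' c' => simp [Fb.par] at h
          | r κ' c' =>
            simp only [Fb.par, Fb.a2.injEq] at h
            right
            rw [h.1, h.2]
          | lf κ' c' i => simp [Fb.par] at h
          | mk κ' c' i j =>
            simp only [Fb.par] at h
            split_ifs at h
  | r κ c =>
    refine ⟨insert (Fb.a2 κ c) ((Finset.range (m + (if c = true ∧ κ ∈ L then 1 else 0))).image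
      fun i => Fb.lf κ c i), ?_, ?_⟩
    · rw [Finset.card_insert_of_notMem, Finset.card_image_of_injective, Finset.card_range]
      · simp only [fdeg]
        omega
      · intro i j h
        simpa using h
      · simp
    · intro g
      rw [Finset.mem_insert, Finset.mem_image]
      constructor
      · rintro (rfl | ⟨i, hi, rfl⟩)
        · exact ⟨trivial, Or.inl ⟨by simp, rfl⟩⟩
        · refine ⟨?_, Or.inr ⟨by simp, rfl⟩⟩
          rw [Finset.mem_range] at hi
          show i < m ∨ (i = m ∧ c = true ∧ κ ∈ L)
          split_ifs at hi with h1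
          · rcases Nat.lt_or_ge i m with h2 | h2
            · exact Or.inl h2
            · exact Or.inr ⟨by omega, h1⟩
          · exact Or.inl (by omega)
      · rintro ⟨hg, ⟨_, h⟩ | ⟨h0, h⟩⟩
        · exact Or.inl h
        · cases g with
          | root => exact absurd rfl h0
          | a1 κ' c' => simp [Fb.par] at h
          | a2 κ' c' => simp [Fb.par] at h
          | r κ' c' => simp [Fb.par] at h
          | lf κ' c' i =>
            simp only [Fb.par, Fb.r.injEq] at h
            obtain ⟨rfl, rfl⟩ := h
            right
            refine ⟨i, ?_, rfl⟩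
            rw [Finset.mem_range]
            have hg' : i < m ∨ (i = m ∧ c = true ∧ κ ∈ L) := hg
            rcases hg' with h1 | ⟨h1, h2⟩
            · omega
            · rw [if_pos h2]; omega
          | mk κ' c' i j =>
            simp only [Fb.par] at h
            split_ifs at h
  | lf κ c i =>
    refine ⟨{Fb.r κ c}, ?_, ?_⟩
    · rw [Finset.card_singleton]
      rfl
    · intro g
      rw [Finset.mem_singleton]
      constructor
      · rintro rfl
        exact ⟨trivial, Or.inl ⟨by simp, rfl⟩⟩
      · rintro ⟨_, ⟨_, h⟩ | ⟨h0, h⟩⟩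
        · exact h
        · cases g with
          | root => exact absurd rfl h0
          | a1 κ' c' => simp [Fb.par] at h
          | a2 κ' c' => simp [Fb.par] at h
          | r κ' c' => simp [Fb.par] at h
          | lf κ' c' i => simp [Fb.par] at h
          | mk κ' c' i j =>
            simp only [Fb.par] at h
            split_ifs at h
  | mk κ c i j =>
    have hf' : i ∈ code κ ∧ 1 ≤ j ∧ j ≤ i := hf
    have key : ∀ g, (Fb.ok m code L g ∧ g ≠ Fb.root ∧ Fb.mk κ c i j = Fb.par g) ↔
        (j < i ∧ g = Fb.mk κ c i (j + 1)) := by
      intro g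
      constructor
      · rintro ⟨hg, h0, h⟩
        cases g with
        | root => exact absurd rfl h0
        | a1 κ' c' => simp [Fb.par] at h
        | a2 κ' c' => simp [Fb.par] at h
        | r κ' c' => simp [Fb.par] at h
        | lf κ' c' i => simp [Fb.par] at h
        | mk κ' c' i' j' =>
          simp only [Fb.par] at h
          split_ifs at h with h2
          simp only [Fb.mk.injEq] at h
          obtain ⟨rfl, rfl, rfl, h3⟩ := h
          have h4 := hg.2.2
          refine ⟨by omega, ?_⟩
          rw [h3]
          congr 1
          omega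
      · rintro ⟨hji, rfl⟩
        refine ⟨⟨hf'.1, by omega, by omega⟩, by simp, ?_⟩
        simp only [Fb.par]
        rw [if_neg (by omega)]
        rfl
    have hpar : Fb.ok m code L (Fb.par (Fb.mk κ c i j)) := by
      simp only [Fb.par]
      split_ifs with h1
      · trivial
      · exact ⟨hf'.1, by omega, by omega⟩
    have hne : Fb.par (Fb.mk κ c i j) ≠ Fb.mk κ c i (j + 1) := by
      simp only [Fb.par]
      split_ifs with h1
      · simp
      · simp only [ne_eq, Fb.mk.injEq, true_and]
        omega
    by_cases hji : j < i
    · refine ⟨{Fb.par (Fb.mk κ c i j), Fb.mk κ c i (j + 1)}, ?_, ?_⟩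
      · rw [Finset.card_pair hne]
        simp only [fdeg]
        rw [if_pos hji]
      · intro g
        rw [Finset.mem_insert, Finset.mem_singleton]
        constructor
        · rintro (rfl | rfl)
          · exact ⟨hpar, Or.inl ⟨by simp, rfl⟩⟩
          · have := (key (Fb.mk κ c i (j + 1))).2 ⟨hji, rfl⟩
            exact ⟨this.1, Or.inr this.2⟩
        · rintro ⟨hg, ⟨_, h⟩ | ⟨h0, h⟩⟩
          · exact Or.inl h
          · exact Or.inr ((key g).1 ⟨hg, h0, h⟩).2
    · refine ⟨{Fb.par (Fb.mk κ c i j)}, ?_, ?_⟩
      · rw [Finset.card_singleton]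
        simp only [fdeg]
        rw [if_neg hji]
      · intro g
        rw [Finset.mem_singleton]
        constructor
        · rintro rfl
          exact ⟨hpar, Or.inl ⟨by simp, rfl⟩⟩
        · rintro ⟨hg, ⟨_, h⟩ | ⟨h0, h⟩⟩
          · exact h
          · exact absurd ((key g).1 ⟨hg, h0, h⟩).1 hji

theorem degGe_of_le {V : Type} {G : SimpleGraph V} {v : V} {T : Finset V}
    (hT : ∀ w ∈ T, G.Adj v w) {n : ℕ} (hn : n ≤ T.card) : DegGe G n v := by
  obtain ⟨s, hs, hc⟩ := Finset.exists_subset_card_eq hn
  exact ⟨s, hc, fun w hw => hT w (hs hw)⟩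

theorem pDegF : StDegF := by
  classical
  intro K V _ _ k hk hK C S lab u
  constructor
  · intro hu n hn
    apply degGe_of_le (T := (Finset.univ : Finset (K × Bool)).image fun p =>
      (⟨(own u, Fb.a1 p.1 p.2), trivial⟩ : FullV k C lab))
    · intro w hw
      rw [Finset.mem_image] at hw
      obtain ⟨p, _, rfl⟩ := hw
      right
      refine ⟨rfl, ?_⟩
      show Fb.adj (fb u) (Fb.a1 p.1 p.2)
      rw [hu]
      exact Or.inr ⟨by simp, rfl⟩
    · rw [Finset.card_image_of_injective, Finset.card_univ, Fintype.card_prod, Fintype.card_bool]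
      · omega
      · intro p q h
        have h1 := congrArg (fun z : FullV k C lab => z.1.2) h
        simp only [Fb.a1.injEq] at h1
        exact Prod.ext h1.1 h1.2
  · intro hu n
    obtain ⟨T, hTc, hT⟩ := nbrs (MM k) C.code (brL lab (own u))
      (fun κ i hi => by have := (C.rng κ i hi).1; omega) (fb u) u.2 hu
    let F : T → FullV k C lab := fun g => ⟨(own u, g.1), ((hT g.1).1 g.2).1⟩
    have hF : Function.Injective F := by
      intro g h hgh
      have h1 := congrArg (fun z : FullV k C lab => z.1.2) hgh
      exact Subtype.ext h1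
    have hcard : (T.attach.image F).card = T.card := by
      rw [Finset.card_image_of_injective _ hF, Finset.card_attach]
    have hadj : ∀ w, (full k C S lab).Adj u w ↔ w ∈ T.attach.image F := by
      intro w
      rw [Finset.mem_image]
      constructor
      · rintro (⟨_, h, _⟩ | ⟨h1, h2⟩)
        · exact absurd h hu
        · have hw : w.1.2 ∈ T := by
            rw [hT]
            refine ⟨?_, h2⟩
            have := w.2
            rw [← h1] at this
            exact this
          refine ⟨⟨w.1.2, hw⟩, Finset.mem_attach _ _, ?_⟩
          apply Subtype.ext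
          exact Prod.ext h1 rfl
      · rintro ⟨g, _, rfl⟩
        exact Or.inr ⟨rfl, ((hT g.1).1 g.2).2⟩
    rw [← hTc, ← hcard]
    constructor
    · rintro ⟨s, rfl, hs⟩
      apply Finset.card_le_card
      intro w hw
      exact (hadj w).1 (hs w hw)
    · intro hn
      exact degGe_of_le (fun w hw => (hadj w).2 hw) hn

end Pool.Agent.Helper13.LD
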